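import Pool.Agent.ATB.Stmts2
import Pool.Agent.Helper85_ATB.LPW

set_option autoImplicit false

/-! Row LCC of squad ATB: the top exterior power of a subspace. -/

namespace Pool.Agent.ATB.H61

open Pool.Agent.ATB

theorem ofFn_prod_mem {K : Type} [Field K] {A : Type} [Ring A] [Algebra K A] (M : Submodule K A)
    (m : ℕ) (f : Fin m → A) (hf : ∀ i, f i ∈ M) : (List.ofFn f).prod ∈ M ^ m := by
  induction m with
  | zero =>
    rw [List.ofFn_zero, List.prod_nil, pow_zero]
    exact Submodule.one_le.1 le_rfl
  | succ m ih =>
    rw [List.ofFn_succ, List.prod_cons, pow_succ']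
    exact Submodule.mul_mem_mul (hf 0) (ih (fun i => f i.succ) (fun i => hf _))

theorem lcc : LCCStmt := by
  intro K _ n W
  refine ⟨?_, ?_⟩
  · set w := Module.finrank K W with hw
    set b := Module.finBasis K W with hb
    set v : Fin w → (Fin n → K) := fun i => ((b i : W) : Fin n → K) with hv
    have hli : LinearIndependent K v :=
      b.linearIndependent.map' W.subtype (Submodule.ker_subtype W)
    have h1 := exteriorPower.ιMulti_family_linearIndependent_field (K := K) (n := w) hli
    have hs : ∃ s : Set.powersetCard (Fin w) w, True :=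
      ⟨⟨Finset.univ, by simp [Set.powersetCard]⟩, trivial⟩
    obtain ⟨s, -⟩ := hs
    have h2 := h1.ne_zero s
    refine ⟨((exteriorPower.ιMulti_family K w v s : ⋀[K]^w (Fin n → K)) :
      ExteriorAlgebra K (Fin n → K)), ?_, ?_⟩
    · rw [Lpow_natCast]
      rw [exteriorPower.ιMulti_family_apply_coe]
      unfold ExteriorAlgebra.ιMulti_family
      rw [ExteriorAlgebra.ιMulti_apply]
      refine ofFn_prod_mem _ w _ fun i => ?_
      refine Submodule.mem_map_of_mem ?_
      exact (b _).2
    · intro h3
      exact h2 (Subtype.ext h3)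
  · intro a ha ω hω
    have h1 := Pool.Agent.ATB.H85.lp_mul W (Module.finrank K W : ℤ) a ω ha hω
    rw [Pool.Agent.ATB.H85.lp_bot W _ (by omega), Submodule.mem_bot] at h1
    exact h1

end Pool.Agent.ATB.H61
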